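import Pool.Agent.NPG.Stmts

/-!
# NPG, row JEX: extension from a closed set, zero on another one
-/

set_option autoImplicit false

open MeasureTheory Set Topology
open scoped BigOperators Pointwise

namespace Pool.Agent.NPG.H63

open Pool.Agent.LSG Pool.Agent.NPG

section
variable {X : Type} [TopologicalSpace X] (A D : Set X)

open Classical in
/-- the function on `A ∪ D` -/
noncomputable def kf (g : ↥(Rv D {x : D | x.1 ∈ A})) (x : ↥(A ∪ D)) : ℝ :=
  if h : x.1 ∈ D then g.1 ⟨x.1, h⟩ else 0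

theorem kf_D (g : ↥(Rv D {x : D | x.1 ∈ A})) (x : ↥(A ∪ D)) (h : x.1 ∈ D) :
    kf A D g x = g.1 ⟨x.1, h⟩ := by
  unfold kf
  rw [dif_pos h]

theorem kf_A (g : ↥(Rv D {x : D | x.1 ∈ A})) (x : ↥(A ∪ D)) (h : x.1 ∈ A) :
    kf A D g x = 0 := by
  by_cases hD : x.1 ∈ D
  · rw [kf_D A D g x hD]
    exact g.2.2 ⟨x.1, hD⟩ h
  · unfold kf
    rw [dif_neg hD]

theorem kf_cont (hA : IsClosed A) (hD : IsClosed D) (g : ↥(Rv D {x : D | x.1 ∈ A})) :
    Continuous (kf A D g) := by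
  have hA' : IsClosed {x : ↥(A ∪ D) | x.1 ∈ A} := hA.preimage continuous_subtype_val
  have hD' : IsClosed {x : ↥(A ∪ D) | x.1 ∈ D} := hD.preimage continuous_subtype_val
  have h1 : ContinuousOn (kf A D g) {x : ↥(A ∪ D) | x.1 ∈ A} :=
    continuousOn_const.congr fun x hx => kf_A A D g x hx
  have h2 : ContinuousOn (kf A D g) {x : ↥(A ∪ D) | x.1 ∈ D} := by
    rw [continuousOn_iff_continuous_restrict]
    have h3 : Set.domRestrict {x : ↥(A ∪ D) | x.1 ∈ D} (kf A D g) =
        fun y : {x : ↥(A ∪ D) | x.1 ∈ D} => g.1 ⟨y.1.1, y.2⟩ :=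
      funext fun y => kf_D A D g y.1 y.2
    rw [h3]
    exact g.2.1.comp
      ((continuous_subtype_val.comp continuous_subtype_val).subtype_mk _)
  have h4 : ContinuousOn (kf A D g) ({x : ↥(A ∪ D) | x.1 ∈ A} ∪ {x : ↥(A ∪ D) | x.1 ∈ D}) :=
    h1.union_of_isClosed h2 hA' hD'
  have h5 : ({x : ↥(A ∪ D) | x.1 ∈ A} ∪ {x : ↥(A ∪ D) | x.1 ∈ D}) = Set.univ :=
    Set.eq_univ_of_forall fun x => x.2
  rw [h5] at h4
  exact continuousOn_univ.1 h4

/-- the function on `A ∪ D` as a continuous linear map -/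
noncomputable def kL (hA : IsClosed A) (hD : IsClosed D) :
    ↥(Rv D {x : D | x.1 ∈ A}) →L[ℝ] ↥(Cp ↥(A ∪ D)) where
  toFun g := ⟨kf A D g, kf_cont A D hA hD g⟩
  map_add' g g' := by
    refine Subtype.ext (funext fun x => ?_)
    show kf A D (g + g') x = kf A D g x + kf A D g' x
    by_cases h : x.1 ∈ D
    · rw [kf_D A D _ x h, kf_D A D _ x h, kf_D A D _ x h]
      rfl
    · unfold kf
      rw [dif_neg h, dif_neg h, dif_neg h, add_zero]
  map_smul' c g := by
    refine Subtype.ext (funext fun x => ?_)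
    show kf A D (c • g) x = c * kf A D g x
    by_cases h : x.1 ∈ D
    · rw [kf_D A D _ x h, kf_D A D _ x h]
      rfl
    · unfold kf
      rw [dif_neg h, dif_neg h, mul_zero]
  cont := by
    refine Continuous.subtype_mk (continuous_pi fun x => ?_) _
    by_cases h : x.1 ∈ D
    · have h1 : (fun g : ↥(Rv D {x : D | x.1 ∈ A}) => kf A D g x) =
          fun g => g.1 ⟨x.1, h⟩ := funext fun g => kf_D A D g x h
      rw [h1]
      exact (continuous_apply _).comp continuous_subtype_val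
    · have h1 : (fun g : ↥(Rv D {x : D | x.1 ∈ A}) => kf A D g x) = fun _ => 0 := by
        funext g
        unfold kf
        rw [dif_neg h]
      rw [h1]
      exact continuous_const

end

theorem jex (h0 : DugStmt) : JexStmt := by
  intro X _ _ A D hA hD
  obtain ⟨φ, hφ⟩ := h0 X (A ∪ D) (hA.union hD)
  refine ⟨φ.comp (kL A D hA hD), fun g => ⟨fun x => ?_, fun x hx => ?_⟩⟩
  · show (φ (kL A D hA hD g)).1 x.1 = g.1 x
    have h1 := hφ (kL A D hA hD g) ⟨x.1, Or.inr x.2⟩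
    rw [h1]
    exact kf_D A D g ⟨x.1, Or.inr x.2⟩ x.2
  · show (φ (kL A D hA hD g)).1 x = 0
    have h1 := hφ (kL A D hA hD g) ⟨x, Or.inl hx⟩
    rw [h1]
    exact kf_A A D g ⟨x, Or.inl hx⟩ hx

end Pool.Agent.NPG.H63
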